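import Mathlib

set_option maxHeartbeats 400000

namespace Pool.Agent.H.MP_f6f917_al

def Cl : List ℕ :=
  [16434824, 14571144, 14599368, 16405704, 14599809, 16406145, 16434369, 14570689, 11788826,
  9925146, 9953370, 11759706, 9953811, 11760147, 11788371, 9924691, 5017516, 6823852,
  6852076, 4988396, 6852517, 4988837, 5017061, 6823397, 371518, 2177854, 2206078, 342398,
  2206519, 342839, 371063, 2177399]

def ap (c : ℕ) (x : Fin 8) : Fin 8 := Fin.ofNat 8 (c >>> (3 * x.val))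

def F8 : List (Fin 8) := [0, 1, 2, 3, 4, 5, 6, 7]

theorem mem_F8 (x : Fin 8) : x ∈ F8 := by revert x; decide

def Dl : List (Fin 8 → Fin 8) := Cl.map ap

theorem D_one : ∃ d ∈ Dl, ∀ x, x = d x := by
  have : (Cl.any fun c => F8.all fun x => x == ap c x) = true := by decide +kernel
  simpa [Dl, mem_F8] using this
theorem D_mul : ∀ d ∈ Dl, ∀ d' ∈ Dl, ∃ e ∈ Dl, ∀ x, d (d' x) = e x := by
  have : (Cl.all fun c => Cl.all fun c' => Cl.any fun e => F8.all fun x =>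
    ap c (ap c' x) == ap e x) = true := by decide +kernel
  simpa [Dl, mem_F8] using this
theorem D_inv : ∀ d ∈ Dl, ∃ e ∈ Dl, (∀ x, e (d x) = x) ∧ ∀ x, d (e x) = x := by
  have : (Cl.all fun c => Cl.any fun e => (F8.all fun x => ap e (ap c x) == x) &&
    F8.all fun x => ap c (ap e x) == x) = true := by decide +kernel
  simpa [Dl, mem_F8] using this
theorem D_exp : ∀ d ∈ Dl, ∀ x, d (d (d (d x))) = x := by
  have : (Cl.all fun c => F8.all fun x => ap c (ap c (ap c (ap c x))) == x) = true := by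
    decide +kernel
  simpa [Dl, mem_F8] using this
theorem D_tr : ∀ x y, ∃ d ∈ Dl, d x = y := by
  have : (F8.all fun x => F8.all fun y => Cl.any fun c => ap c x == y) = true := by decide +kernel
  simpa [Dl, mem_F8] using this
theorem D_bad : ∀ a ∈ Dl, a 0 = 4 → ∀ b ∈ Dl, b 0 = 6 → ∃ x, b (b x) = x ∧ b (b (a x)) ≠ x ∧
    b (b (a x)) ≠ a x ∧ b (b (a x)) ≠ a (a x) ∧ b (b (a x)) ≠ a (a (a x)) := by
  have : (Cl.all fun a => Cl.all fun b => decide (ap a 0 = 4 → ap b 0 = 6 → (F8.any fun x =>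
    decide (ap b (ap b x) = x ∧ ap b (ap b (ap a x)) ≠ x ∧ ap b (ap b (ap a x)) ≠ ap a x ∧
      ap b (ap b (ap a x)) ≠ ap a (ap a x) ∧ ap b (ap b (ap a x)) ≠ ap a (ap a (ap a x)))) = true)) =
      true := by decide +kernel
  intro a ha h1 b hb h2
  obtain ⟨a, ha', rfl⟩ := List.mem_map.1 ha
  obtain ⟨b, hb', rfl⟩ := List.mem_map.1 hb
  obtain ⟨x, -, hx⟩ := List.any_eq_true.1 (of_decide_eq_true
    (List.all_eq_true.1 (List.all_eq_true.1 this a ha') b hb') h1 h2)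
  exact ⟨x, of_decide_eq_true hx⟩

abbrev Om := Fin 8 × ℕ

def S : Subgroup (Equiv.Perm Om) where
  carrier := {g | (∃ k, ∀ x : Om, 2 ^ k ≤ x.2 → g x = x) ∧
    (∀ j (x y : Om), (g x).2 / 2 ^ j = (g y).2 / 2 ^ j ↔ x.2 / 2 ^ j = y.2 / 2 ^ j) ∧
    ∀ n, ∃ d ∈ Dl, ∀ x, (g (x, n)).1 = d x}
  one_mem' := ⟨⟨0, fun _ _ => rfl⟩, fun _ _ _ => Iff.rfl, fun _ => D_one⟩
  mul_mem' := by
    rintro g h ⟨⟨k, g1⟩, g2, g3⟩ ⟨⟨l, h1⟩, h2, h3⟩
    refine ⟨⟨k + l, fun x hx => ?_⟩, fun j x y => (g2 j _ _).trans (h2 j _ _), fun n => ?_⟩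
    · rw [Equiv.Perm.mul_apply, h1 x (le_trans (Nat.pow_le_pow_right (by omega) (by omega)) hx),
        g1 x (le_trans (Nat.pow_le_pow_right (by omega) (by omega)) hx)]
    · obtain ⟨d', hd', e'⟩ := h3 n
      obtain ⟨d, hd, e⟩ := g3 (h (0, n)).2
      obtain ⟨c, hc, ec⟩ := D_mul d hd d' hd'
      refine ⟨c, hc, fun x => ?_⟩
      have : h (x, n) = (d' x, (h (0, n)).2) :=
        Prod.ext (e' x) (by simpa using (h2 0 (x, n) (0, n)).2 rfl)
      rw [Equiv.Perm.mul_apply, this, e, ec]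
  inv_mem' := by
    rintro g ⟨⟨k, g1⟩, g2, g3⟩
    refine ⟨⟨k, fun x hx => ?_⟩, fun j x y => ?_, fun n => ?_⟩
    · rw [Equiv.Perm.inv_eq_iff_eq, g1 x hx]
    · simpa using (g2 j (g⁻¹ x) (g⁻¹ y)).symm
    · obtain ⟨d, hd, e⟩ := g3 (g⁻¹ (0, n)).2
      obtain ⟨c, hc, ec, -⟩ := D_inv d hd
      refine ⟨c, hc, fun x => ?_⟩
      have h1 : (g⁻¹ (x, n)).2 = (g⁻¹ (0, n)).2 := by
        simpa using (g2 0 (g⁻¹ (x, n)) (g⁻¹ (0, n))).1 (by simp)
      have h2 := e (g⁻¹ (x, n)).1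
      rw [← h1] at h2
      simp only [Prod.mk.eta, Equiv.Perm.coe_inv, Equiv.apply_symm_apply] at h2
      rw [← ec (g⁻¹ (x, n)).1]
      exact congrArg c h2.symm

theorem S_fin {g : Equiv.Perm Om} (hg : g ∈ S) : {x | g x ≠ x}.Finite := by
  obtain ⟨⟨k, g1⟩, -, -⟩ := hg
  refine (Set.finite_univ.prod (Set.finite_lt_nat (2 ^ k))).subset fun x hx => ⟨trivial, ?_⟩
  by_contra h
  exact hx (g1 x (not_lt.1 h))

theorem fib {g : Equiv.Perm Om} (hg : g ∈ S) {n : ℕ} (h : (g (0, n)).2 = n) :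
    ∃ d ∈ Dl, ∀ x, g (x, n) = (d x, n) := by
  obtain ⟨d, hd, e⟩ := hg.2.2 n
  exact ⟨d, hd, fun x => Prod.ext (e x) 
    (Eq.trans (by simpa using (hg.2.1 0 (x, n) (0, n)).2 rfl) h)⟩

theorem S_p : IsPGroup 2 S := by
  rintro ⟨g, hg⟩
  obtain ⟨k, g1⟩ := hg.1
  have key : ∀ i, i ≤ k → ∀ x : Om, ((g ^ 2 ^ i) x).2 / 2 ^ (k - i) = x.2 / 2 ^ (k - i) := by
    intro i
    induction i with
    | zero =>
      intro _ x
      simp only [pow_zero, pow_one, Nat.sub_zero]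
      by_cases h : 2 ^ k ≤ x.2
      · rw [g1 x h]
      · have : ¬ 2 ^ k ≤ (g x).2 := fun h' => h (by rw [← g.injective (g1 _ h')]; exact h')
        rw [Nat.div_eq_of_lt (not_le.1 h), Nat.div_eq_of_lt (not_le.1 this)]
    | succ i ih =>
      intro hi x
      have hr := (S.pow_mem hg (2 ^ i)).2.1 (k - (i + 1))
      have e : k - i = k - (i + 1) + 1 := by omega
      have h1 := ih (by omega) x
      have h2 := ih (by omega) ((g ^ 2 ^ i) x)
      rw [e, pow_succ, ← Nat.div_div_eq_div_mul, ← Nat.div_div_eq_div_mul] at h1 h2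
      have h3 := hr ((g ^ 2 ^ i) x) x
      rw [pow_succ, pow_mul, sq, Equiv.Perm.mul_apply]
      omega
  refine ⟨k + 2, Subtype.ext (Equiv.ext fun x => ?_)⟩
  obtain ⟨d, hd, e⟩ := fib (S.pow_mem hg (2 ^ k)) (n := x.2) (by simpa using key k le_rfl (0, x.2))
  show (g ^ 2 ^ (k + 2)) (x.1, x.2) = (x.1, x.2)
  rw [pow_add, pow_mul, show 2 ^ 2 = 1 + 1 + 1 + 1 from rfl]
  simp only [pow_succ, pow_zero, one_mul, Equiv.Perm.mul_apply, e, D_exp d hd]

theorem S_tr (x y : Om) : ∃ g ∈ S, g x = y := by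
  obtain ⟨d, hd, e⟩ := D_tr x.1 y.1
  obtain ⟨c, hc, c1, c2⟩ := D_inv d hd
  obtain ⟨k, hk⟩ : ∃ k, x.2 < 2 ^ k ∧ y.2 < 2 ^ k :=
    ⟨x.2 + y.2, lt_of_le_of_lt (by omega) Nat.lt_two_pow_self,
      lt_of_le_of_lt (by omega) Nat.lt_two_pow_self⟩
  have hw := Nat.xor_lt_two_pow hk.1 hk.2
  set w := x.2 ^^^ y.2 with hwd
  let f : (Fin 8 → Fin 8) → Om → Om := fun d z => if z.2 < 2 ^ k then (d z.1, z.2 ^^^ w) else z
  have hf : ∀ d d' : Fin 8 → Fin 8, (∀ z, d (d' z) = z) → ∀ z, f d (f d' z) = z := by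
    intro d d' h z
    by_cases hz : z.2 < 2 ^ k
    · simp [f, hz, Nat.xor_lt_two_pow hz hw, h]
    · simp [f, hz]
  refine ⟨⟨f d, f c, hf c d c1, hf d c c2⟩, ⟨⟨k, fun z hz => if_neg (not_lt.2 hz)⟩, fun j a b => ?_,
    fun n => ?_⟩, ?_⟩
  · show (f d a).2 / 2 ^ j = (f d b).2 / 2 ^ j ↔ _
    have h1 : ∀ m n, m < 2 ^ k → ¬ n < 2 ^ k → m / 2 ^ j = n / 2 ^ j →
        ∀ m', m' < 2 ^ k → m' / 2 ^ j = n / 2 ^ j := by
      intro m n hm hn h m' hm'
      by_cases hj : j ≤ k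
      · exfalso
        have e2 : 2 ^ k = 2 ^ j * 2 ^ (k - j) := by rw [← pow_add]; congr 1; omega
        apply hn
        rw [e2, mul_comm, ← Nat.div_lt_iff_lt_mul (by positivity)] at hm ⊢
        rwa [← h]
      · have : 2 ^ k ≤ 2 ^ j := Nat.pow_le_pow_right (by omega) (by omega)
        rw [← h, Nat.div_eq_of_lt (by omega), Nat.div_eq_of_lt (by omega)]
    by_cases ha : a.2 < 2 ^ k <;> by_cases hb : b.2 < 2 ^ k <;> simp only [f, ha, hb, if_true, if_false]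
    · rw [Nat.xor_div_two_pow (a := a.2), Nat.xor_div_two_pow (a := b.2)]
      exact Nat.xor_left_inj
    · exact ⟨fun h => h1 _ _ (Nat.xor_lt_two_pow ha hw) hb h _ ha,
        fun h => h1 _ _ ha hb h _ (Nat.xor_lt_two_pow ha hw)⟩
    · exact ⟨fun h => (h1 _ _ (Nat.xor_lt_two_pow hb hw) ha h.symm _ hb).symm,
        fun h => (h1 _ _ hb ha h.symm _ (Nat.xor_lt_two_pow hb hw)).symm⟩
  · by_cases hn : n < 2 ^ k
    · exact ⟨d, hd, fun z => by show (f d (z, n)).1 = _; simp [f, hn]⟩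
    · obtain ⟨o, ho, eo⟩ := D_one
      exact ⟨o, ho, fun z => by show (f d (z, n)).1 = _; simp [f, hn, ← eo]⟩
  · show f d x = y
    simp [f, hk.1, e, hwd]

theorem S_bad (H : Subgroup (Equiv.Perm Om)) (hH : H ≤ S) (ht : ∀ x y, ∃ h ∈ H, h x = y) :
    ∃ u ∈ H, ∃ x, ∃ v ∈ H, ¬ (v '' Set.range (fun n : ℤ => (u ^ n) x) =
      Set.range (fun n : ℤ => (u ^ n) x) ∨
      Disjoint (v '' Set.range (fun n : ℤ => (u ^ n) x)) (Set.range (fun n : ℤ => (u ^ n) x))) := by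
  obtain ⟨u, hu, e1⟩ := ht (0, 0) (4, 0)
  obtain ⟨v, hv, e2⟩ := ht (0, 0) (6, 0)
  obtain ⟨a, ha, ea⟩ := fib (hH hu) (n := 0) (by rw [e1])
  obtain ⟨b, hb, eb⟩ := fib (hH hv) (n := 0) (by rw [e2])
  obtain ⟨x, h1, h2, h3, h4, h5⟩ := D_bad a ha (congrArg Prod.fst ((ea 0).symm.trans e1)) b hb
    (congrArg Prod.fst ((eb 0).symm.trans e2))
  refine ⟨u, hu, (x, 0), v * v, H.mul_mem hv hv, ?_⟩
  have hvv : ∀ z, (v * v) (z, 0) = (b (b z), 0) := fun z => by rw [Equiv.Perm.mul_apply, eb, eb]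
  rintro (h | h)
  · have : (v * v) (u (x, 0)) ∈ Set.range (fun n : ℤ => (u ^ n) (x, 0)) :=
      h ▸ ⟨_, ⟨1, by simp⟩, rfl⟩
    obtain ⟨n, hn⟩ := this
    have key : ∀ n : ℤ, (u ^ n) (x, 0) ∈ ({(x, 0), (a x, 0), (a (a x), 0), (a (a (a x)), 0)} : Set Om) := by
      intro n
      induction n using Int.induction_on with
      | zero => simp
      | succ n ih =>
        rw [add_comm, zpow_add, zpow_one, Equiv.Perm.mul_apply]
        rcases ih with h | h | h | h <;> rw [h, ea] <;> simp [D_exp a ha]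
      | pred n ih =>
        have hi : ∀ z, u⁻¹ (z, 0) = (a (a (a z)), 0) := fun z => by
          rw [Equiv.Perm.inv_eq_iff_eq, ea, D_exp a ha]
        rw [sub_eq_add_neg, add_comm, zpow_add, zpow_neg_one, Equiv.Perm.mul_apply]
        rcases ih with h | h | h | h <;> rw [h, hi] <;> simp [D_exp a ha]
    have h6 := key n
    simp only at hn
    rw [hn, ea, hvv] at h6
    simp [h2, h3, h4, h5] at h6
  · exact Set.disjoint_left.1 h ⟨(x, 0), ⟨0, by simp⟩, by rw [hvv, h1]⟩ ⟨0, by simp⟩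

end Pool.Agent.H.MP_f6f917_al
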